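import Pool.Agent.W759.TR.Defs

/-!
Part T5 of project TR (helper759, MP_76c567_pr): the process is 2-dependent.
-/

namespace Pool.Agent.W89.TR

open MeasureTheory ProbabilityTheory Set Filter
open scoped ENNReal Topology
open Pool.Agent.W759.FD (house rs)
open Pool.Agent.W759.TR

variable {V : Type}

/-! ### locality of the chains -/

lemma isU_loc (G : SimpleGraph V) {A : Set V} {U U' : V → Lab}
    (hU : ∀ v, (v ∈ A ∨ ∃ a ∈ A, G.Adj a v) → U v = U' v) {u : V} (hu : u ∈ A) (c : Lab) (v : V) :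
    IsU G U u c v ↔ IsU G U' u c v := by
  have h : ∀ v, G.Adj u v → U v = U' v := fun v hv => hU v (Or.inr ⟨u, hu, hv⟩)
  unfold IsU
  constructor
  · rintro ⟨h1, h2, h3⟩
    exact ⟨h1, by rw [← h v h1]; exact h2, fun u' hu' hc => h3 u' hu' (by rw [h u' hu']; exact hc)⟩
  · rintro ⟨h1, h2, h3⟩
    exact ⟨h1, by rw [h v h1]; exact h2, fun u' hu' hc => h3 u' hu' (by rw [← h u' hu']; exact hc)⟩

open Classical in
lemma dite_congr' {α : Type} {P P' : V → Prop} (hPP : P = P') (F : V → α) (d : α) :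
    (if h : ∃ u, P u then F h.choose else d) = (if h : ∃ u, P' u then F h.choose else d) := by
  subst hPP; rfl

lemma first_loc (G : SimpleGraph V) {C A : Set V}
    (hN : ∀ a ∈ A, ∀ u ∈ C, G.Adj a u → u ∈ A) {U U' : V → Lab}
    (hU : ∀ v, (v ∈ A ∨ ∃ a ∈ A, G.Adj a v) → U v = U' v) (w : List Lab) :
    ∀ (j : ℕ) (v : V), v ∈ A →
      (first G C U w j v).1 ∈ A ∧ first G C U w j v = first G C U' w j v := by
  intro j
  induction j with
  | zero => intro v hv; exact ⟨hv, rfl⟩
  | succ j ih =>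
    intro v hv
    have hP : (fun u => u ∈ C ∧ v ∈ C ∧ Link G U w j u v) =
        (fun u => u ∈ C ∧ v ∈ C ∧ Link G U' w j u v) := by
      funext u
      apply propext
      constructor
      · rintro ⟨h1, h2, h3⟩
        have hua : u ∈ A := hN v hv u h1 h3.2.1
        exact ⟨h1, h2, (isU_loc G hU hua _ _).1 h3.1, (isU_loc G hU hv _ _).1 h3.2⟩
      · rintro ⟨h1, h2, h3⟩
        have hua : u ∈ A := hN v hv u h1 h3.2.1
        exact ⟨h1, h2, (isU_loc G hU hua _ _).2 h3.1, (isU_loc G hU hv _ _).2 h3.2⟩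
    have e1 : first G C U' w (j + 1) v = (open Classical in
        if h : ∃ u, u ∈ C ∧ v ∈ C ∧ Link G U w j u v then first G C U' w j h.choose
        else (v, j + 1)) := by
      rw [first]
      exact (dite_congr' hP (fun u => first G C U' w j u) (v, j + 1)).symm
    rw [e1, first]
    by_cases h : ∃ u, u ∈ C ∧ v ∈ C ∧ Link G U w j u v
    · rw [dif_pos h, dif_pos h]
      have h1 := h.choose_spec
      exact ih _ (hN v hv _ h1.1 h1.2.2.2.1)
    · rw [dif_neg h, dif_neg h]
      exact ⟨hv, rfl⟩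

/-! ### factorisation -/

/-- the closed neighbourhood -/
def nbh (G : SimpleGraph V) (A : Set V) : Set V := {v | v ∈ A ∨ ∃ a ∈ A, G.Adj a v}

/-- the keys of houses over `A` -/
def kys (A : Set V) : Set (Key × (V × ℕ)) := {k | k.2.1 ∈ A}

open Classical in
/-- extension by constants -/
noncomputable def ext (G : SimpleGraph V) (A : Set V)
    (p : (nbh G A → Lab) × (kys A → ℕ → Bool)) : Env V :=
  (fun v => if h : v ∈ nbh G A then p.1 ⟨v, h⟩ else 0,
    fun k => if h : k ∈ kys A then p.2 ⟨k, h⟩ else fun _ => false)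

lemma measurable_ext (G : SimpleGraph V) (A : Set V) : Measurable (ext G A) := by
  unfold ext
  refine Measurable.prodMk ?_ ?_
  · refine measurable_pi_lambda _ fun v => ?_
    by_cases h : v ∈ nbh G A
    · simp only [h, dif_pos]
      exact (measurable_pi_apply _).comp measurable_fst
    · simp only [h]
      exact measurable_const
  · refine measurable_pi_lambda _ fun k => ?_
    by_cases h : k ∈ kys A
    · simp only [h, dif_pos]
      exact (measurable_pi_apply _).comp measurable_snd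
    · simp only [h]
      exact measurable_const

lemma xc_loc (G : SimpleGraph V) {C A : Set V}
    (hN : ∀ a ∈ A, ∀ u ∈ C, G.Adj a u → u ∈ A) (ω : Env V) (a : V) (ha : a ∈ A) :
    XC G C ω a = XC G C (ext G A (rs (nbh G A) ω.1, rs (kys A) ω.2)) a := by
  have hU : ∀ v, (v ∈ A ∨ ∃ a ∈ A, G.Adj a v) →
      ω.1 v = (ext G A (rs (nbh G A) ω.1, rs (kys A) ω.2)).1 v := by
    intro v hv
    have hv' : v ∈ nbh G A := hv
    simp only [ext, dif_pos hv', rs]
  unfold XC
  refine Prod.ext ?_ ?_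
  · exact hU a (Or.inl ha)
  · funext q
    obtain ⟨h1, h2⟩ := first_loc G hN hU q.1.2 q.2 a ha
    simp only
    rw [← h2]
    have h3 : (q.1, first G C ω.1 q.1.2 q.2 a) ∈ kys A := h1
    simp only [ext, dif_pos h3, rs]

/-! ### independence -/

lemma indep_prod {Ω Ω' α α' β β' : Type} [MeasurableSpace Ω] [MeasurableSpace Ω']
    [MeasurableSpace α] [MeasurableSpace α'] [MeasurableSpace β] [MeasurableSpace β']
    (μ : Measure Ω) (ν : Measure Ω') [IsProbabilityMeasure μ] [IsProbabilityMeasure ν]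
    {f : Ω → α} {g : Ω → β} {f' : Ω' → α'} {g' : Ω' → β'} (hf : Measurable f) (hg : Measurable g)
    (hf' : Measurable f') (hg' : Measurable g') (h : IndepFun f g μ) (h' : IndepFun f' g' ν) :
    IndepFun (fun p : Ω × Ω' => (f p.1, f' p.2)) (fun p : Ω × Ω' => (g p.1, g' p.2))
      (μ.prod ν) := by
  have mF : Measurable (fun p : Ω × Ω' => (f p.1, f' p.2)) :=
    (hf.comp measurable_fst).prodMk (hf'.comp measurable_snd)
  have mG : Measurable (fun p : Ω × Ω' => (g p.1, g' p.2)) :=
    (hg.comp measurable_fst).prodMk (hg'.comp measurable_snd)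
  rw [IndepFun_iff_Indep]
  refine IndepSets.indep (μ := μ.prod ν)
    (p1 := {s | ∃ t ∈ image2 (fun (s : Set α) (t : Set α') => s ×ˢ t)
      {s | MeasurableSet s} {t | MeasurableSet t},
      (fun p : Ω × Ω' => (f p.1, f' p.2)) ⁻¹' t = s})
    (p2 := {s | ∃ t ∈ image2 (fun (s : Set β) (t : Set β') => s ×ˢ t)
      {s | MeasurableSet s} {t | MeasurableSet t},
      (fun p : Ω × Ω' => (g p.1, g' p.2)) ⁻¹' t = s})
    mF.comap_le mG.comap_le
    (isPiSystem_prod.comap _) (isPiSystem_prod.comap _) ?_ ?_ ?_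
  · rw [← generateFrom_prod, MeasurableSpace.comap_generateFrom]
    rfl
  · rw [← generateFrom_prod, MeasurableSpace.comap_generateFrom]
    rfl
  · rw [IndepSets_iff]
    rintro _ _ ⟨_, ⟨s1, hs1, s2, hs2, rfl⟩, rfl⟩ ⟨_, ⟨t1, ht1, t2, ht2, rfl⟩, rfl⟩
    have e1 : (fun p : Ω × Ω' => (f p.1, f' p.2)) ⁻¹' (s1 ×ˢ s2) = (f ⁻¹' s1) ×ˢ (f' ⁻¹' s2) := by
      ext p; simp
    have e2 : (fun p : Ω × Ω' => (g p.1, g' p.2)) ⁻¹' (t1 ×ˢ t2) = (g ⁻¹' t1) ×ˢ (g' ⁻¹' t2) := by
      ext p; simp
    have e3 : ((f ⁻¹' s1) ×ˢ (f' ⁻¹' s2)) ∩ ((g ⁻¹' t1) ×ˢ (g' ⁻¹' t2)) =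
        (f ⁻¹' s1 ∩ g ⁻¹' t1) ×ˢ (f' ⁻¹' s2 ∩ g' ⁻¹' t2) := Set.prod_inter_prod
    simp only
    rw [e1, e2, e3, Measure.prod_prod, Measure.prod_prod, Measure.prod_prod,
      h.measure_inter_preimage_eq_mul _ _ hs1 ht1, h'.measure_inter_preimage_eq_mul _ _ hs2 ht2]
    ring

lemma indep_rs {ι T : Type} [MeasurableSpace T] (μ : ι → Measure T)
    [∀ i, IsProbabilityMeasure (μ i)] {S S' : Set ι} (hS : Disjoint S S') :
    IndepFun (rs (T := T) S) (rs (T := T) S') (Measure.infinitePi μ) := by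
  have hi : iIndepFun (fun (i : ι) (ω : ι → T) => ω i) (Measure.infinitePi μ) :=
    iIndepFun_infinitePi (X := fun _ x => x) (fun _ => measurable_id)
  have h1 := indep_iSup_of_disjoint (μ := Measure.infinitePi μ)
    (m := fun i => MeasurableSpace.comap (fun ω : ι → T => ω i) inferInstance)
    (fun i => (measurable_pi_apply i).comap_le) hi hS
  rw [IndepFun_iff_Indep]
  have h2 : ∀ S : Set ι, MeasurableSpace.comap (rs (T := T) S) inferInstance =
      ⨆ i ∈ S, MeasurableSpace.comap (fun ω : ι → T => ω i) inferInstance := by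
    intro S
    rw [iSup_subtype']
    show MeasurableSpace.comap (rs (T := T) S) MeasurableSpace.pi = _
    rw [MeasurableSpace.pi, MeasurableSpace.comap_iSup]
    refine iSup_congr fun i => ?_
    rw [MeasurableSpace.comap_comp]
    rfl
  rw [h2, h2]
  exact h1

end Pool.Agent.W89.TR

open MeasureTheory ProbabilityTheory Set Filter in
open Pool.Agent.W759.FD (house rs) in
open Pool.Agent.W759.TR in
open Pool.Agent.W89.TR in
/-- (T5) the process is 2-dependent -/
theorem Pool.Agent.W89.TR.t5 : T5 := by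
  intro h0 h2 h4 V _ G A B hAB
  have hp : ∀ k : Key × (V × ℕ), IsProbabilityMeasure (house (k.1.1.1 + 1)) :=
    fun k => h0.1 _ (Nat.succ_pos _)
  have : IsProbabilityMeasure (PU V) := by unfold PU; infer_instance
  have : IsProbabilityMeasure (PH V) := by unfold PH; infer_instance
  have : IsProbabilityMeasure (PE V) := by unfold PE; infer_instance
  have hadj : ∀ a ∈ A, ∀ b ∈ B, ¬ G.Adj a b := by
    intro a ha b hb h
    have h1 := hAB a ha b hb
    have h3 := SimpleGraph.dist_le (SimpleGraph.Walk.cons h SimpleGraph.Walk.nil)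
    simp only [SimpleGraph.Walk.length_cons, SimpleGraph.Walk.length_nil] at h3
    omega
  have hne : ∀ a ∈ A, a ∉ B := by
    intro a ha hb
    have h1 := hAB a ha a hb
    rw [SimpleGraph.dist_self] at h1
    omega
  have hdN : Disjoint (nbh G A) (nbh G B) := by
    rw [Set.disjoint_left]
    rintro v (hv | ⟨a, ha, hav⟩) (hv' | ⟨b, hb, hbv⟩)
    · exact hne v hv hv'
    · exact hadj v hv b hb hbv.symm
    · exact hadj a ha v hv' hav
    · have h1 := hAB a ha b hb
      have h3 := SimpleGraph.dist_le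
        (SimpleGraph.Walk.cons hav (SimpleGraph.Walk.cons hbv.symm SimpleGraph.Walk.nil))
      simp only [SimpleGraph.Walk.length_cons, SimpleGraph.Walk.length_nil] at h3
      omega
  have hdK : Disjoint (kys A) (kys B) := by
    rw [Set.disjoint_left]
    intro k hk hk'
    exact hne _ hk hk'
  have hNA : ∀ a ∈ A, ∀ u ∈ A ∪ B, G.Adj a u → u ∈ A := by
    rintro a ha u (hu | hu) h
    · exact hu
    · exact absurd h (hadj a ha u hu)
  have hNB : ∀ a ∈ B, ∀ u ∈ A ∪ B, G.Adj a u → u ∈ B := by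
    rintro a ha u (hu | hu) h
    · exact absurd h.symm (hadj u hu a ha)
    · exact hu
  have mrs : ∀ {ι T : Type} [MeasurableSpace T] (S : Set ι), Measurable (rs (T := T) S) :=
    fun S => measurable_pi_lambda _ fun i => measurable_pi_apply _
  have hind0 : IndepFun
      (fun ω : Env V => (rs (nbh G A) ω.1, rs (kys A) ω.2))
      (fun ω : Env V => (rs (nbh G B) ω.1, rs (kys B) ω.2)) (PE V) := by
    unfold PE
    refine indep_prod (PU V) (PH V) (mrs _) (mrs _) (mrs _) (mrs _) ?_ ?_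
    · unfold PU; exact indep_rs _ hdN
    · unfold PH; exact indep_rs _ hdK
  have mA : ∀ D : Set V, Measurable (fun x : V → S1 => fun a : D => x a) :=
    fun D => measurable_pi_lambda _ fun a => measurable_pi_apply _
  have hind : IndepFun (fun ω : Env V => fun a : A => XC G (A ∪ B) ω a)
      (fun ω : Env V => fun b : B => XC G (A ∪ B) ω b) (PE V) := by
    have h5 := hind0.comp (((mA A).comp (h2 V G (A ∪ B))).comp (measurable_ext G A))
      (((mA B).comp (h2 V G (A ∪ B))).comp (measurable_ext G B))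
    have e1 : (fun ω : Env V => fun a : A => XC G (A ∪ B) ω a) =
        (((fun x : V → S1 => fun a : A => x a) ∘ XC G (A ∪ B)) ∘ ext G A) ∘
          (fun ω : Env V => (rs (nbh G A) ω.1, rs (kys A) ω.2)) := by
      funext ω a
      exact xc_loc G hNA ω a a.2
    have e2 : (fun ω : Env V => fun a : B => XC G (A ∪ B) ω a) =
        (((fun x : V → S1 => fun a : B => x a) ∘ XC G (A ∪ B)) ∘ ext G B) ∘
          (fun ω : Env V => (rs (nbh G B) ω.1, rs (kys B) ω.2)) := by
      funext ω a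
      exact xc_loc G hNB ω a a.2
    rw [e1, e2]
    exact h5
  -- transfer
  have hX := h2 V G univ
  have hXC := h2 V G (A ∪ B)
  have hC := h4 V G (A ∪ B)
  let pA : ((A ∪ B : Set V) → S1) → (A → S1) := fun y a => y ⟨a, Or.inl a.2⟩
  let pB : ((A ∪ B : Set V) → S1) → (B → S1) := fun y b => y ⟨b, Or.inr b.2⟩
  have mpA : Measurable pA := measurable_pi_lambda _ fun a => measurable_pi_apply _
  have mpB : Measurable pB := measurable_pi_lambda _ fun a => measurable_pi_apply _
  have mr : Measurable (rs (T := S1) (A ∪ B)) := mrs _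
  have key : ∀ E : Set ((A ∪ B : Set V) → S1), MeasurableSet E →
      muT G (rs (A ∪ B) ⁻¹' E) = PE V ((fun ω => rs (A ∪ B) (XC G (A ∪ B) ω)) ⁻¹' E) := by
    intro E hE
    have h5 : muT G (rs (A ∪ B) ⁻¹' E) = PE V (XC G univ ⁻¹' (rs (A ∪ B) ⁻¹' E)) := by
      rw [muT, Measure.map_apply hX (mr hE)]
    have h6 : PE V (XC G univ ⁻¹' (rs (A ∪ B) ⁻¹' E)) =
        (PE V).map (fun ω => rs (A ∪ B) (XC G univ ω)) E :=
      (Measure.map_apply (mr.comp hX) hE).symm
    have h7 : (PE V).map (fun ω => rs (A ∪ B) (XC G (A ∪ B) ω)) E =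
        PE V ((fun ω => rs (A ∪ B) (XC G (A ∪ B) ω)) ⁻¹' E) :=
      Measure.map_apply (mr.comp hXC) hE
    rw [h5, h6, hC, h7]
  rw [← IndepFun_iff_Indep, indepFun_iff_measure_inter_preimage_eq_mul]
  intro s t hs ht
  have e1 : (fun x : V → S1 => fun a : A => x a) ⁻¹' s = rs (A ∪ B) ⁻¹' (pA ⁻¹' s) := rfl
  have e2 : (fun x : V → S1 => fun b : B => x b) ⁻¹' t = rs (A ∪ B) ⁻¹' (pB ⁻¹' t) := rfl
  rw [e1, e2, ← Set.preimage_inter, key _ ((mpA hs).inter (mpB ht)), key _ (mpA hs),
    key _ (mpB ht)]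
  exact hind.measure_inter_preimage_eq_mul s t hs ht
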